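import Pool.Agent.Y160.FT.Stmts2

/-!
# Linear independence over the integers from independence modulo `1 - σ`
-/

set_option autoImplicit false

open Polynomial

namespace Pool.Agent.Y627.FT

/-- The sum `1 + X + ... + X ^ (q - 1)`. -/
noncomputable def nm (q : ℕ) : ℤ[X] := ∑ i ∈ Finset.range q, X ^ i

/-- The polynomial `U` with `q = U (1 - X) + nm`. -/
noncomputable def uu (q : ℕ) : ℤ[X] := ∑ i ∈ Finset.range q, ∑ j ∈ Finset.range i, X ^ j

theorem uu_eq (q : ℕ) : (q : ℤ[X]) = uu q * (1 - X) + nm q := by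
  unfold uu nm
  rw [Finset.sum_mul, ← Finset.sum_add_distrib]
  have h : ∀ i ∈ Finset.range q, (∑ j ∈ Finset.range i, (X : ℤ[X]) ^ j) * (1 - X) + X ^ i = 1 := by
    intro i _
    rw [geom_sum_mul_neg]
    ring
  rw [Finset.sum_congr rfl h]
  simp

theorem nm_mul (q : ℕ) : nm q * (1 - X) = 1 - X ^ q := by
  unfold nm
  rw [geom_sum_mul_neg]

theorem exists_W {p m q : ℕ} (hp : p.Prime) (hq : q = p ^ m) : ∃ W : ℤ[X],
    (1 - X) ^ q = (p : ℤ[X]) * W + (1 - X ^ q) := by
  have := Fact.mk hp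
  set φ := Polynomial.mapRingHom (Int.castRingHom (ZMod p)) with hφ
  have hX : φ X = X := by rw [hφ, coe_mapRingHom, map_X]
  have h5 : φ ((1 - X) ^ q - (1 - X ^ q)) = 0 := by
    rw [map_sub, map_pow, map_sub, map_sub, map_pow, map_one, hX, hq, sub_pow_char_pow, one_pow,
      sub_self]
  have h6 : C ((p : ℤ)) ∣ ((1 : ℤ[X]) - X) ^ q - (1 - X ^ q) := by
    rw [C_dvd_iff_dvd_coeff]
    intro i
    have h7 := congrArg (fun q => q.coeff i) h5
    simp only [hφ, coe_mapRingHom, coeff_map, coeff_zero] at h7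
    exact (ZMod.intCast_zmod_eq_zero_iff_dvd _ _).1 h7
  obtain ⟨W, hW⟩ := h6
  have h9 : (C (p : ℤ) : ℤ[X]) = (p : ℤ[X]) := by simp
  refine ⟨W, ?_⟩
  rw [← h9]
  linear_combination hW

theorem nm_monic {q : ℕ} (hq : 1 ≤ q) : (nm q).Monic ∧ (nm q).natDegree = q - 1 := by
  obtain ⟨n, rfl⟩ : ∃ n, q = n + 1 := ⟨q - 1, by omega⟩
  have h : nm (n + 1) = X ^ n + ∑ i ∈ Finset.range n, X ^ i := by
    unfold nm
    rw [Finset.sum_range_succ, add_comm]
  have hdeg : (∑ i ∈ Finset.range n, (X : ℤ[X]) ^ i).degree < (n : WithBot ℕ) := by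
    rw [degree_lt_iff_coeff_zero]
    intro m hmn
    rw [finset_sum_coeff]
    apply Finset.sum_eq_zero
    intro i hi
    rw [Finset.mem_range] at hi
    rw [coeff_X_pow, if_neg (by omega)]
  have hm : (nm (n + 1)).Monic := by
    rw [h]
    exact monic_X_pow_add hdeg
  refine ⟨hm, ?_⟩
  have h2 : (X ^ n + ∑ i ∈ Finset.range n, (X : ℤ[X]) ^ i).degree = ((X : ℤ[X]) ^ n).degree :=
    degree_add_eq_left_of_degree_lt (by rw [degree_X_pow]; exact hdeg)
  rw [degree_X_pow] at h2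
  rw [h, natDegree_eq_of_degree_eq_some h2]
  rfl

section act

variable {M : Type} [AddCommGroup M] (σ : AddMonoid.End M)

/-- The action of a polynomial. -/
noncomputable def act (P : ℤ[X]) : AddMonoid.End M := aeval σ P

theorem act_add (P Q : ℤ[X]) (x : M) : act σ (P + Q) x = act σ P x + act σ Q x := by
  unfold act; rw [map_add]; rfl

theorem act_sub (P Q : ℤ[X]) (x : M) : act σ (P - Q) x = act σ P x - act σ Q x := by
  unfold act; rw [map_sub]; rfl

theorem act_mul (P Q : ℤ[X]) (x : M) : act σ (P * Q) x = act σ P (act σ Q x) := by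
  unfold act; rw [map_mul]; rfl

theorem act_C (a : ℤ) (x : M) : act σ (C a) x = a • x := by
  unfold act
  rw [aeval_C, Algebra.algebraMap_eq_smul_one]
  rfl

theorem act_X_pow (i : ℕ) (x : M) : act σ (X ^ i) x = (σ ^ i) x := by
  unfold act; rw [map_pow, aeval_X]

theorem act_one (x : M) : act σ 1 x = x := by
  unfold act; rw [map_one]; rfl

theorem act_one_sub (x : M) : act σ (1 - X) x = x - σ x := by
  rw [act_sub, act_one]
  congr 1
  have := act_X_pow σ 1 x
  rwa [pow_one, pow_one] at this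

theorem act_sum {ι : Type*} (s : Finset ι) (P : ι → ℤ[X]) (x : M) :
    act σ (∑ i ∈ s, P i) x = ∑ i ∈ s, act σ (P i) x := by
  classical
  induction s using Finset.induction_on with
  | empty =>
    rw [Finset.sum_empty, Finset.sum_empty]
    unfold act; rw [map_zero]; rfl
  | insert a s ha ih => rw [Finset.sum_insert ha, Finset.sum_insert ha, act_add, ih]

theorem act_nm {q : ℕ} (h : ∀ x : M, ∑ i ∈ Finset.range q, (σ ^ i) x = 0) (P : ℤ[X]) (x : M) :
    act σ (P * nm q) x = 0 := by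
  have h1 : act σ (nm q) x = 0 := by
    unfold nm
    rw [act_sum, ← h x]
    exact Finset.sum_congr rfl (fun i _ => act_X_pow σ i x)
  rw [act_mul, h1, map_zero]

end act

theorem iter {q r : ℕ} {M : Type} [AddCommGroup M] (σ : AddMonoid.End M) (D : Fin r → M)
    (h1 : ∀ x : M, ∑ i ∈ Finset.range q, (σ ^ i) x = 0)
    (h2 : ∀ x : M, x - σ x = 0 → x = 0)
    (h3 : ∀ (a : Fin r → ℤ) (y : M), ∑ j, a j • D j = y - σ y → ∀ j, (q : ℤ) ∣ a j)
    (α : Fin r → ℤ[X]) (hα : ∑ j, act σ (α j) (D j) = 0) (N : ℕ) :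
    ∃ β : Fin r → ℤ[X], (∀ j, nm q ∣ α j - (1 - X) ^ N * β j) ∧ ∑ j, act σ (β j) (D j) = 0 := by
  induction N with
  | zero =>
    refine ⟨α, fun j => ?_, hα⟩
    simp
  | succ N ih =>
    obtain ⟨β, hβ1, hβ2⟩ := ih
    -- division by `X - 1`
    have hdiv : ∀ j, ∃ γ : ℤ[X], β j = C ((β j).eval 1) - (1 - X) * γ := by
      intro j
      have := (dvd_iff_isRoot (p := β j - C ((β j).eval 1)) (a := (1 : ℤ))).mpr (by simp)
      obtain ⟨γ, hγ⟩ := this
      refine ⟨γ, ?_⟩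
      rw [map_one] at hγ
      linear_combination hγ
    choose γ hγ using hdiv
    have hy : ∑ j, (β j).eval 1 • D j =
        (∑ j, act σ (γ j) (D j)) - σ (∑ j, act σ (γ j) (D j)) := by
      rw [map_sum, ← Finset.sum_sub_distrib, ← sub_eq_zero, ← Finset.sum_sub_distrib, ← hβ2]
      refine Finset.sum_congr rfl (fun j _ => ?_)
      rw [hγ j, act_sub, act_C, act_mul, act_one_sub]
      simp [eval_sub, eval_mul]
    have hs : ∀ j, (q : ℤ) ∣ (β j).eval 1 := h3 _ _ hy
    choose s hs using hs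
    have hβ' : ∀ j, β j = (1 - X) * (C (s j) * uu q - γ j) + C (s j) * nm q := by
      intro j
      have e1 := hγ j
      rw [hs j] at e1
      have e2 : C ((q : ℤ) * s j) = C (s j) * (q : ℤ[X]) := by
        rw [mul_comm, C_mul]
        simp
      rw [e2, uu_eq q] at e1
      linear_combination e1
    refine ⟨fun j => C (s j) * uu q - γ j, fun j => ?_, ?_⟩
    · have h4 : α j - (1 - X) ^ (N + 1) * (C (s j) * uu q - γ j) =
          (α j - (1 - X) ^ N * β j) + (1 - X) ^ N * C (s j) * nm q := by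
        linear_combination ((1 - X) ^ N) * hβ' j
      show nm q ∣ α j - (1 - X) ^ (N + 1) * (C (s j) * uu q - γ j)
      rw [h4]
      exact dvd_add (hβ1 j) (Dvd.intro_left _ rfl)
    · apply h2
      rw [map_sum, ← Finset.sum_sub_distrib, ← hβ2]
      refine Finset.sum_congr rfl (fun j _ => ?_)
      conv_rhs => rw [hβ' j]
      rw [act_add, act_nm σ h1, add_zero, act_mul, act_one_sub]

theorem eq_zero_of_pow_dvd {p : ℕ} (hp : 2 ≤ p) {c : ℤ} (h : ∀ N : ℕ, (p : ℤ) ^ N ∣ c) : c = 0 := by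
  by_contra hc
  have h1 := Int.natAbs_dvd_natAbs.mpr (h c.natAbs)
  rw [Int.natAbs_pow, Int.natAbs_natCast] at h1
  have h2 := Nat.le_of_dvd (Int.natAbs_pos.mpr hc) h1
  have h3 : c.natAbs < p ^ c.natAbs := Nat.lt_pow_self (by omega)
  omega

theorem poly_zero {p s q : ℕ} (hp : p.Prime) (hq : q = p ^ (s + 1)) (α : ℤ[X])
    (hdeg : α.degree < (nm q).degree)
    (h : ∀ N : ℕ, ∃ β : ℤ[X], nm q ∣ α - (1 - X) ^ (q * N) * β) : α = 0 := by
  have hq1 : 1 ≤ q := by rw [hq]; exact Nat.one_le_pow _ _ hp.pos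
  obtain ⟨hm, -⟩ := nm_monic hq1
  obtain ⟨W, hW⟩ := exists_W hp hq
  have hdvd : ∀ N : ℕ, ∃ V : ℤ[X], (1 - X) ^ (q * N) = (p : ℤ[X]) ^ N * W ^ N + V * nm q := by
    intro N
    induction N with
    | zero => exact ⟨0, by simp⟩
    | succ N ih =>
      obtain ⟨V, hV⟩ := ih
      refine ⟨V * (1 - X) ^ q + (p : ℤ[X]) ^ N * W ^ N * (1 - X), ?_⟩
      have e1 : (1 - X : ℤ[X]) ^ (q * (N + 1)) = (1 - X) ^ (q * N) * (1 - X) ^ q := by
        rw [← pow_add]; congr 1
      have e2 := nm_mul q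
      rw [e1, hV]
      linear_combination ((p : ℤ[X]) ^ N * W ^ N) * hW - ((p : ℤ[X]) ^ N * W ^ N) * e2
  ext i
  rw [coeff_zero]
  apply eq_zero_of_pow_dvd hp.two_le
  intro N
  obtain ⟨β, hβ⟩ := h N
  obtain ⟨V, hV⟩ := hdvd N
  have h1 : nm q ∣ α - C ((p : ℤ) ^ N) * (W ^ N * β) := by
    have e3 : (C ((p : ℤ) ^ N) : ℤ[X]) = (p : ℤ[X]) ^ N := by simp
    have e4 : α - C ((p : ℤ) ^ N) * (W ^ N * β) =
        (α - (1 - X) ^ (q * N) * β) + V * β * nm q := by
      rw [e3, hV]; ring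
    rw [e4]
    exact dvd_add hβ (Dvd.intro_left _ rfl)
  have h2 : α %ₘ nm q = (C ((p : ℤ) ^ N) * (W ^ N * β)) %ₘ nm q := by
    rw [← sub_eq_zero, ← sub_modByMonic]
    exact (modByMonic_eq_zero_iff_dvd hm).mpr h1
  rw [(modByMonic_eq_self_iff hm).mpr hdeg, ← smul_eq_C_mul, smul_modByMonic] at h2
  rw [h2, coeff_smul, smul_eq_mul]
  exact Dvd.intro _ rfl

theorem stLin : Pool.Agent.Y160.FT.StLin := by
  intro p s q M _ σ r D hp hq h1 h2 h3
  have hq1 : 1 ≤ q := by rw [hq]; exact Nat.one_le_pow _ _ hp.pos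
  obtain ⟨hm, hd⟩ := nm_monic hq1
  rw [Fintype.linearIndependent_iff]
  intro g hg
  set α : Fin r → ℤ[X] := fun j => ∑ i : Fin (q - 1), C (g (j, i)) * X ^ (i : ℕ) with hα
  have hsum : ∑ j, act σ (α j) (D j) = 0 := by
    rw [← hg, Fintype.sum_prod_type]
    refine Finset.sum_congr rfl (fun j _ => ?_)
    rw [hα, act_sum]
    refine Finset.sum_congr rfl (fun i _ => ?_)
    rw [act_mul, act_C, act_X_pow]
  have hdeg : ∀ j, (α j).degree < (nm q).degree := by
    intro j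
    rw [degree_eq_natDegree hm.ne_zero, hd, degree_lt_iff_coeff_zero]
    intro m hmn
    simp only [hα, finset_sum_coeff, coeff_C_mul, coeff_X_pow]
    apply Finset.sum_eq_zero
    intro i _
    have := i.2
    rw [if_neg (by omega), mul_zero]
  have hzero : ∀ j, α j = 0 := by
    intro j
    apply poly_zero hp hq (α j) (hdeg j)
    intro N
    obtain ⟨β, hβ, -⟩ := iter σ D h1 h2 h3 α hsum (q * N)
    exact ⟨β j, hβ j⟩
  rintro ⟨j, i⟩
  have h4 := congrArg (fun P => P.coeff (i : ℕ)) (hzero j)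
  simp only [hα, finset_sum_coeff, coeff_C_mul, coeff_X_pow, coeff_zero] at h4
  rw [Finset.sum_eq_single i] at h4
  · simpa using h4
  · intro b _ hb
    rw [if_neg, mul_zero]
    intro h
    exact hb (Fin.ext h.symm)
  · intro h
    exact absurd (Finset.mem_univ _) h

end Pool.Agent.Y627.FT
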